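import Pool.Agent.Lib_helper50.PG.Orb2
import Pool.Agent.Lib_helper72.AP.LF

/-!
# The Euler product with a system of eigenvalues
-/

set_option autoImplicit false

namespace Pool.Agent.PG

open NumberField Polynomial Function
open Pool.Agent.TT Pool.Agent.TB Pool.Agent.TF Pool.Agent.RF Pool.Agent.TU Pool.Agent.KT Pool.Agent.AP

/-- The symbol of order `1`. -/
theorem lf2_one {K F : Type} [Field K] [Field F] [Fintype F] (φ : 𝓞 K →+* F) (y : F) :
    (y = 0 → residueSymbol 1 1 φ y = 0) ∧ (y ≠ 0 → residueSymbol 1 1 φ y = 1) := by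
  classical
  unfold residueSymbol
  rw [Fin.sum_univ_one]
  have h1 : 0 < Fintype.card F - 1 := by
    have := Fintype.one_lt_card (α := F)
    omega
  constructor
  · intro h
    rw [if_neg]
    rw [h, Nat.div_one, Fin.val_zero, pow_zero, zero_pow h1.ne']
    exact zero_ne_one
  · intro h
    rw [if_pos, one_pow]
    rw [Nat.div_one, Fin.val_zero, pow_zero]
    exact FiniteField.pow_card_sub_one_eq_one y h

/-- Factorization of an embedding. -/
theorem lf2_factor {A B Ω : Type} [Field A] [Field B] [Field Ω] (e : A →+* Ω) (κ : B →+* Ω)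
    (h : ∀ y, ∃ z, κ z = e y) : ∃ u : A →+* B, ∀ y, κ (u y) = e y := by
  choose j hj using h
  refine ⟨⟨⟨⟨j, ?_⟩, ?_⟩, ?_, ?_⟩, hj⟩
  · apply κ.injective
    rw [hj, map_one, map_one]
  · intro x y
    apply κ.injective
    change κ (j (x * y)) = κ (j x * j y)
    rw [hj, map_mul, map_mul, hj, hj]
  · apply κ.injective
    change κ (j 0) = κ 0
    rw [hj, map_zero, map_zero]
  · intro x y
    apply κ.injective
    change κ (j (x + y)) = κ (j x + j y)
    rw [hj, map_add, map_add, hj, hj]

/-- From a power series to the recursion in the field. -/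
theorem lf2_nrec {B : Subring Qbar} {s : ℕ → B} {E : PowerSeries B} (h : LogD s E) {J : ℕ}
    {t : ℕ → Qbar} (ht : ∀ l, 1 ≤ l → l ≤ J → t l = (s l : Qbar)) :
    NRec t (fun j => ((PowerSeries.coeff j E : B) : Qbar)) J := by
  obtain ⟨h1, h2⟩ := h
  refine ⟨?_, ?_⟩
  · change ((PowerSeries.coeff 0 E : B) : Qbar) = 1
    rw [PowerSeries.coeff_zero_eq_constantCoeff_apply, h1]
    rfl
  · intro j hj hjJ
    obtain ⟨i, rfl⟩ : ∃ i, j = i + 1 := ⟨j - 1, by omega⟩
    have h3 := congrArg (PowerSeries.coeff (i + 1)) h2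
    rw [PowerSeries.coeff_succ_X_mul, PowerSeries.coeff_derivative, neg_mul, map_neg,
      PowerSeries.coeff_mul, Finset.Nat.sum_antidiagonal_eq_sum_range_succ_mk,
      Finset.sum_range_succ'] at h3
    simp only [PowerSeries.coeff_mk, if_true, zero_mul, add_zero] at h3
    have h4 := congrArg (Subring.subtype B) h3
    rw [map_mul, map_neg, map_sum] at h4
    change ((PowerSeries.coeff (i + 1) E : B) : Qbar) * (((i : B) + 1 : B) : Qbar) = _ at h4
    rw [mul_comm, Nat.cast_succ]
    have h5 : ((((i : B) + 1 : B)) : Qbar) = (i : Qbar) + 1 := by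
      push_cast
      rfl
    rw [← h5, h4]
    congr 1
    apply Finset.sum_congr rfl
    intro a ha
    rw [Finset.mem_range] at ha
    have h9 : i + 1 - (a + 1) = i + 1 - 1 - a := by omega
    rw [if_neg (Nat.succ_ne_zero a), h9, map_mul, ht (a + 1) (by omega) (by omega)]
    rfl

section

variable {q : ℕ} [Fact q.Prime] [∀ l, Fintype (GaloisField q l)]

theorem lf2_card {l : ℕ} (hl : 0 < l) : Fintype.card (GaloisField q l) = q ^ l := by
  rw [← Nat.card_eq_fintype_card]
  exact GaloisField.card q l (by omega)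

omit [∀ l, Fintype (GaloisField q l)] in
theorem lf2_pos {D M : ℕ} (x : Fin M → GaloisField q D) :
    0 < minimalPeriod (frob q D M) x :=
  minimalPeriod_pos_of_mem_periodicPts
    (Function.Injective.mem_periodicPts (frob q D M).injective x)

theorem lf2_dvd {D M r : ℕ} (hr : 0 < r) (e : GaloisField q r →+* GaloisField q D)
    {z : Fin M → GaloisField q r} {x : Fin M → GaloisField q D} (hx : ∀ i, e (z i) = x i) :
    minimalPeriod (frob q D M) x ∣ r := by
  have hper : IsPeriodicPt (frob q D M) r x := by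
    funext i
    rw [frob_iter, ← hx i, ← map_pow, ← lf2_card hr, FiniteField.pow_card]
  exact hper.minimalPeriod_dvd

theorem lf2_pt {D M : ℕ} (hD : 0 < D) (x : Fin M → GaloisField q D) :
    ∃ (e : GaloisField q (minimalPeriod (frob q D M) x) →+* GaloisField q D)
      (z : Fin M → GaloisField q (minimalPeriod (frob q D M) x)), ∀ i, e (z i) = x i := by
  have hl := lf2_pos x
  have hlD : minimalPeriod (frob q D M) x ∣ D := lf2_dvd hD (RingHom.id _) (z := x) fun _ => rfl
  obtain ⟨e'⟩ : Nonempty (GaloisField q (minimalPeriod (frob q D M) x) →ₐ[ZMod q]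
      GaloisField q D) := by
    apply FiniteField.nonempty_algHom_of_finrank_dvd
    rw [GaloisField.finrank q hl.ne', GaloisField.finrank q hD.ne']
    exact hlD
  have hfix : (frob q D M)^[minimalPeriod (frob q D M) x] x = x := iterate_minimalPeriod
  have h1 : ∀ i, ∃ z, e'.toRingHom z = x i := by
    intro i
    apply l2_range
    rw [lf2_card hl, ← frob_iter, hfix]
  choose z hz using h1
  exact ⟨e'.toRingHom, z, hz⟩

/-- The eigenvalues at a point of the large field. -/
noncomputable def omg {L : Type} [Field L] {D M : ℕ} (hD : 0 < D) (φ₀ : 𝓞 L →+* ZMod q)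
    (ε : ∀ (F : Type) [Field F] [Fintype F], (𝓞 L →+* F) → (Fin M → F) → Multiset Qbar)
    (x : Fin M → GaloisField q D) : Multiset Qbar :=
  ε (GaloisField q (minimalPeriod (frob q D M) x))
    ((algebraMap (ZMod q) (GaloisField q (minimalPeriod (frob q D M) x))).comp φ₀)
    (lf2_pt hD x).choose_spec.choose

theorem omg_spec {L : Type} [Field L] {D M Q R : ℕ} (hD : 0 < D) (φ₀ : 𝓞 L →+* ZMod q)
    {ε : ∀ (F : Type) [Field F] [Fintype F], (𝓞 L →+* F) → (Fin M → F) → Multiset Qbar}
    (hε : PowerSystem Q R ε) {r : ℕ} (hr : 0 < r) (e : GaloisField q r →+* GaloisField q D)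
    {z : Fin M → GaloisField q r} {x : Fin M → GaloisField q D} (hx : ∀ i, e (z i) = x i) :
    ε (GaloisField q r) ((algebraMap (ZMod q) (GaloisField q r)).comp φ₀) z =
      (omg hD φ₀ ε x).map (· ^ (r / minimalPeriod (frob q D M) x)) := by
  have hl := lf2_pos x
  have hlr := lf2_dvd hr e hx
  have hx' := (lf2_pt hD x).choose_spec.choose_spec
  unfold omg
  generalize (lf2_pt hD x).choose_spec.choose = z' at hx' ⊢
  generalize (lf2_pt hD x).choose = e' at hx' ⊢
  generalize minimalPeriod (frob q D M) x = l at *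
  obtain ⟨u, hu⟩ := lf2_factor e' e (fun y => l2_range e (by
    rw [lf2_card hr, ← map_pow]
    congr 1
    obtain ⟨t, rfl⟩ := hlr
    rw [pow_mul, ← lf2_card hl]
    exact FiniteField.pow_card_pow t y))
  have hz : (fun i => u (z' i)) = z := by
    funext i
    apply e.injective
    rw [hu, hx', hx]
  have h2 := hε.2 (GaloisField q l) (GaloisField q r)
    ((algebraMap (ZMod q) (GaloisField q l)).comp φ₀) u (r / l) (by
      rw [lf2_card hr, lf2_card hl, ← pow_mul, Nat.mul_div_cancel' hlr]) z'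
  have h3 : u.comp ((algebraMap (ZMod q) (GaloisField q l)).comp φ₀) =
      (algebraMap (ZMod q) (GaloisField q r)).comp φ₀ := by
    rw [← RingHom.comp_assoc]
    congr 1
    exact RingHom.ext_zmod _ _
  rw [hz, h3] at h2
  exact h2

theorem omg_frob {L : Type} [Field L] {D M Q R : ℕ} (hD : 0 < D) (φ₀ : 𝓞 L →+* ZMod q)
    {ε : ∀ (F : Type) [Field F] [Fintype F], (𝓞 L →+* F) → (Fin M → F) → Multiset Qbar}
    (hε : PowerSystem Q R ε) (x : Fin M → GaloisField q D) :
    omg hD φ₀ ε (frob q D M x) = omg hD φ₀ ε x := by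
  have hl := lf2_pos x
  have hfin : x ∈ periodicPts (frob q D M) :=
    Function.Injective.mem_periodicPts (frob q D M).injective x
  have hx' := (lf2_pt hD x).choose_spec.choose_spec
  have h1 := omg_spec hD φ₀ hε hl ((frobenius (GaloisField q D) q).comp (lf2_pt hD x).choose)
    (z := (lf2_pt hD x).choose_spec.choose) (x := frob q D M x) (fun i => by
      rw [RingHom.comp_apply, hx', frobenius_def, frob_apply])
  rw [minimalPeriod_apply hfin, Nat.div_self hl] at h1
  simp only [pow_one, Multiset.map_id'] at h1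
  exact h1.symm

theorem ev2_sub {B : Subring Qbar} (y w : B) (p : (ℤ[X])[X]) :
    ((ev2 y w p : B) : Qbar) = ev2 (y : Qbar) (w : Qbar) p := by
  have h : (Subring.subtype B).comp (ev2 y w) = ev2 (y : Qbar) (w : Qbar) := by
    unfold ev2
    apply Polynomial.ringHom_ext
    · intro a
      induction a using Polynomial.induction_on' with
      | add a b ha hb => rw [map_add, map_add, map_add, ha, hb]
      | monomial n a => simp
    · simp
  exact congrArg (fun g : (ℤ[X])[X] →+* Qbar => g p) h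

open Classical in
/-- One term of the sum. -/
theorem lf2_term {K : Type} [Field K] [Algebra K Qbar] {D m r : ℕ} (hm : 0 < m)
    {ζ : 𝓞 K} (hζ : IsPrimitiveRoot ζ m) (φ₀ : 𝓞 K →+* ZMod q) (hφζ : IsPrimitiveRoot (φ₀ ζ) m)
    (hmq : m ∣ q - 1) (hr : 0 < r) (e : GaloisField q r →+* GaloisField q D)
    (S : TowerStratum K) (z : Fin S.M → GaloisField q r) {x : Fin S.M → GaloisField q D}
    (hx : ∀ i, e (z i) = x i) :
    algebraMap K Qbar ((residueSymbol m ζ ((algebraMap (ZMod q) (GaloisField q r)).comp φ₀)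
        (S.H.eval₂ ((algebraMap (ZMod q) (GaloisField q r)).comp φ₀) z) *
      residueSymbol 1 1 ((algebraMap (ZMod q) (GaloisField q r)).comp φ₀)
        (S.val ((algebraMap (ZMod q) (GaloisField q r)).comp φ₀) z) : 𝓞 K) : K) =
      ev2 (algebraMap K Qbar ζ) 1 (wt 1 m D ζ φ₀ 1 S x) ^
        (r / minimalPeriod (frob q D S.M) x) := by
  have h1 := l2_term (P := 1) (D := D) Nat.one_pos hm hζ φ₀ hφζ (η₀ := 1) IsPrimitiveRoot.one
    (one_dvd _) hmq hr e (fun _ => 0) (fun y hy => by
      rw [Nat.div_one, pow_zero]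
      exact FiniteField.pow_card_sub_one_eq_one y hy) S
    ((algebraMap K Qbar).comp (algebraMap (𝓞 K) K)) (w := 1) (one_pow 1) z hx
  have h2 : ((algebraMap K Qbar).comp (algebraMap (𝓞 K) K)) ζ = algebraMap K Qbar ζ := rfl
  rw [h2] at h1
  rw [← h1]
  by_cases h0 : S.val ((algebraMap (ZMod q) (GaloisField q r)).comp φ₀) z = 0
  · rw [if_pos h0, (lf2_one _ _).1 h0, mul_zero]
    simp
  · rw [if_neg h0, (lf2_one _ _).2 h0, mul_one, pow_zero, mul_one]
    rfl

open Classical in
/-- The sum over the points of the small field as a sum over the points of the large field. -/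
theorem lf2_sum {K : Type} [Field K] [Algebra K Qbar] {D m r : ℕ} (hm : 0 < m)
    {ζ : 𝓞 K} (hζ : IsPrimitiveRoot ζ m) (φ₀ : 𝓞 K →+* ZMod q) (hφζ : IsPrimitiveRoot (φ₀ ζ) m)
    (hmq : m ∣ q - 1) (hr : 0 < r) (e : GaloisField q r →+* GaloisField q D)
    (S : TowerStratum K) (E : (Fin S.M → GaloisField q r) → Qbar)
    (E' : (Fin S.M → GaloisField q D) → Qbar)
    (hE : ∀ z x, (∀ i, e (z i) = x i) → E z = E' x) :
    (∑ z : Fin S.M → GaloisField q r,
      algebraMap K Qbar ((residueSymbol m ζ ((algebraMap (ZMod q) (GaloisField q r)).comp φ₀)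
        (S.H.eval₂ ((algebraMap (ZMod q) (GaloisField q r)).comp φ₀) z) *
      residueSymbol 1 1 ((algebraMap (ZMod q) (GaloisField q r)).comp φ₀)
        (S.val ((algebraMap (ZMod q) (GaloisField q r)).comp φ₀) z) : 𝓞 K) : K) * E z) =
      ∑ x : Fin S.M → GaloisField q D, if (frob q D S.M)^[r] x = x then
        ev2 (algebraMap K Qbar ζ) 1 (wt 1 m D ζ φ₀ 1 S x) ^
          (r / minimalPeriod (frob q D S.M) x) * E' x else 0 := by
  rw [← Finset.sum_filter]
  apply Finset.sum_bij (fun z _ => fun i => e (z i))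
  · intro z _
    rw [Finset.mem_filter]
    refine ⟨Finset.mem_univ _, ?_⟩
    funext i
    rw [frob_iter, ← map_pow, ← lf2_card hr, FiniteField.pow_card]
  · intro z _ z' _ h
    funext i
    exact e.injective (congrFun h i)
  · intro x hx
    rw [Finset.mem_filter] at hx
    have h1 : ∀ i, ∃ z, e z = x i := by
      intro i
      apply l2_range
      rw [lf2_card hr, ← frob_iter, hx.2]
    choose z hz using h1
    exact ⟨z, Finset.mem_univ _, funext hz⟩
  · intro z _
    rw [lf2_term hm hζ φ₀ hφζ hmq hr e S z (x := fun i => e (z i)) (fun _ => rfl),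
      hE z (fun i => e (z i)) (fun _ => rfl)]

end

/-- BLOCK LF2. -/
theorem block_LF2 {K L : Type} [Field K] [Field L] [Algebra K L] [Algebra K Qbar] {q : ℕ}
    [Fact q.Prime] [∀ l, Fintype (GaloisField q l)] {m : ℕ} (hm : 0 < m) {ζ : 𝓞 K}
    (hζ : IsPrimitiveRoot ζ m) (φ₀ : 𝓞 L →+* ZMod q)
    (hφζ : IsPrimitiveRoot (φ₀ (algebraMap (𝓞 K) (𝓞 L) ζ)) m) {s : ℕ} (S : Fin s → TowerStratum K)
    {Q r : ℕ} (ε : ∀ (i : Fin s) (F : Type) [Field F] [Fintype F], (𝓞 L →+* F) →
      (Fin (S i).M → F) → Multiset Qbar) (hε : ∀ i, PowerSystem Q r (ε i)) (B : Subring Qbar)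
    {k : Type} [CommRing k] (red : B →+* k) (hζB : algebraMap K Qbar ζ ∈ B)
    (hroot : ∀ w : Qbar, w ^ Q = 1 → ∃ h : w ∈ B, red ⟨w, h⟩ = 1) (J : ℕ) :
    ∃ E E₀ : PowerSeries B, PowerSeries.map red E = PowerSeries.map red E₀ ^ r ∧
      NRec (fun l => twistedSum m ζ (((algebraMap (ZMod q) (GaloisField q l)).comp φ₀).comp
          (algebraMap (𝓞 K) (𝓞 L))) S
          (fun i => ε i (GaloisField q l) ((algebraMap (ZMod q) (GaloisField q l)).comp φ₀)))
        (fun j => ((PowerSeries.coeff j E : B) : Qbar)) J ∧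
      NRec (fun l => algebraMap K Qbar ((towerSum m ζ 1 1
          (((algebraMap (ZMod q) (GaloisField q l)).comp φ₀).comp (algebraMap (𝓞 K) (𝓞 L))) S :
            𝓞 K) : K))
        (fun j => ((PowerSeries.coeff j E₀ : B) : Qbar)) J := by
  classical
  obtain ⟨φK, hφK⟩ : ∃ φK : 𝓞 K →+* ZMod q, φK = φ₀.comp (algebraMap (𝓞 K) (𝓞 L)) := ⟨_, rfl⟩
  have hφζ' : IsPrimitiveRoot (φK ζ) m := by rw [hφK]; exact hφζ
  have hcomp : ∀ l, ((algebraMap (ZMod q) (GaloisField q l)).comp φ₀).comp
      (algebraMap (𝓞 K) (𝓞 L)) = (algebraMap (ZMod q) (GaloisField q l)).comp φK := by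
    intro l
    rw [hφK, RingHom.comp_assoc]
  have hmq : m ∣ q - 1 := hφζ'.dvd_of_pow_eq_one _ (ZMod.pow_card_sub_one_eq_one (by
    intro h0
    have h1 := hφζ'.pow_eq_one
    rw [h0, zero_pow hm.ne'] at h1
    exact zero_ne_one h1))
  have hD : 0 < J.factorial := J.factorial_pos
  let ζB : B := ⟨algebraMap K Qbar ζ, hζB⟩
  let W : ∀ i, (Fin (S i).M → GaloisField q J.factorial) → B := fun i x =>
    ev2 ζB 1 (wt 1 m J.factorial ζ φK 1 (S i) x)
  let tb : Qbar → B := fun w => if h : w ∈ B then ⟨w, h⟩ else 0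
  have htb : ∀ w : Qbar, w ^ Q = 1 → ((tb w : B) : Qbar) = w ∧ red (tb w) = 1 := by
    intro w hw
    obtain ⟨h, h1⟩ := hroot w hw
    have h2 : tb w = ⟨w, h⟩ := dif_pos h
    rw [h2]
    exact ⟨rfl, h1⟩
  let ω : ∀ i, (Fin (S i).M → GaloisField q J.factorial) → Multiset B := fun i x =>
    (omg hD φ₀ (ε i) x).map tb
  have hω1 : ∀ i x, ∀ w ∈ omg hD φ₀ (ε i) x, w ^ Q = 1 := fun i x w hw =>
    ((hε i).1 _ _ _).2 w hw
  have hωc : ∀ i x, (omg hD φ₀ (ε i) x).card = r := fun i x => ((hε i).1 _ _ _).1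
  have hor : ∀ i, HasE2 red r
      (fun l => ∑ x, if (frob q J.factorial (S i).M)^[l] x = x then
        W i x ^ (l / minimalPeriod (frob q J.factorial (S i).M) x) *
          ((ω i x).map (· ^ (l / minimalPeriod (frob q J.factorial (S i).M) x))).sum else 0)
      (fun l => ∑ x, if (frob q J.factorial (S i).M)^[l] x = x then
        W i x ^ (l / minimalPeriod (frob q J.factorial (S i).M) x) else 0) := by
    intro i
    apply block_ORB2 red r (frob q J.factorial (S i).M) (frob q J.factorial (S i).M).injective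
      (W i) (fun x => ?_) (ω i) (fun x => ?_) (fun x => ?_) (fun x w hw => ?_)
    · change ev2 ζB 1 (wt 1 m J.factorial ζ φK 1 (S i) _) = _
      rw [wt_const (one_dvd _) hmq]
    · change (omg hD φ₀ (ε i) _).map tb = _
      rw [omg_frob hD φ₀ (hε i)]
    · rw [Multiset.card_map, hωc]
    · obtain ⟨v, hv, rfl⟩ := Multiset.mem_map.mp hw
      exact (htb v (hω1 i x v hv)).2
  obtain ⟨E, E₀, h1, h2, h3⟩ := hasE2_sum Finset.univ
    (fun i _ => hasE2_zsmul (hor i) (S i).c)
  have hhom : ∀ l, 1 ≤ l → l ≤ J →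
      Nonempty (GaloisField q l →+* GaloisField q J.factorial) := by
    intro l hl hlJ
    obtain ⟨e'⟩ : Nonempty (GaloisField q l →ₐ[ZMod q] GaloisField q J.factorial) := by
      apply FiniteField.nonempty_algHom_of_finrank_dvd
      rw [GaloisField.finrank q (by omega), GaloisField.finrank q hD.ne']
      exact Nat.dvd_factorial hl hlJ
    exact ⟨e'.toRingHom⟩
  have hev : ∀ i x, ((W i x : B) : Qbar) =
      ev2 (algebraMap K Qbar ζ) 1 (wt 1 m J.factorial ζ φK 1 (S i) x) := by
    intro i x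
    exact ev2_sub ζB 1 _
  refine ⟨E, E₀, h3, lf2_nrec h1 ?_, lf2_nrec h2 ?_⟩
  · intro l hl hlJ
    obtain ⟨e⟩ := hhom l hl hlJ
    unfold twistedSum
    rw [hcomp, AddSubmonoidClass.coe_finsetSum]
    apply Finset.sum_congr rfl
    intro i _
    rw [Subring.coe_mul, lf2_sum hm hζ φK hφζ' hmq hl e (S i) _
      (fun x => ((omg hD φ₀ (ε i) x).map
        (· ^ (l / minimalPeriod (frob q J.factorial (S i).M) x))).sum)
      (fun z x hx => by
        beta_reduce
        rw [omg_spec hD φ₀ (hε i) hl e hx]), AddSubmonoidClass.coe_finsetSum]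
    refine congrArg₂ (· * ·) (by simp) (Finset.sum_congr rfl ?_)
    intro x _
    split_ifs
    · rw [Subring.coe_mul, Subring.coe_pow, hev]
      congr 1
      have h4 : ∀ (t : ℕ) (s : Multiset Qbar), (∀ w ∈ s, w ^ Q = 1) →
          (s.map (· ^ t)).sum = ((((s.map tb).map (· ^ t)).sum : B) : Qbar) := by
        intro t s
        induction s using Multiset.induction_on with
        | empty => intro _; rfl
        | cons a s ih =>
          intro h
          rw [Multiset.map_cons, Multiset.sum_cons, Multiset.map_cons, Multiset.map_cons,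
            Multiset.sum_cons, Subring.coe_add, Subring.coe_pow,
            (htb a (h a (Multiset.mem_cons_self a s))).1,
            ih fun w hw => h w (Multiset.mem_cons_of_mem hw)]
      exact h4 _ _ (hω1 i x)
    · rfl
  · intro l hl hlJ
    obtain ⟨e⟩ := hhom l hl hlJ
    rw [hcomp]
    have h5 : ((towerSum m ζ 1 1 ((algebraMap (ZMod q) (GaloisField q l)).comp φK) S : 𝓞 K) : K) =
        ∑ i, ((S i).c : K) * ∑ z : Fin (S i).M → GaloisField q l,
        ((residueSymbol m ζ ((algebraMap (ZMod q) (GaloisField q l)).comp φK)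
          ((S i).H.eval₂ ((algebraMap (ZMod q) (GaloisField q l)).comp φK) z) *
        residueSymbol 1 1 ((algebraMap (ZMod q) (GaloisField q l)).comp φK)
          ((S i).val ((algebraMap (ZMod q) (GaloisField q l)).comp φK) z) : 𝓞 K) : K) := by
      have h7 : @algebraMap (𝓞 K) (𝓞 K) _ _ (inst_ringOfIntegersAlgebra K K) =
          RingHom.id (𝓞 K) := rfl
      unfold towerSum
      rw [h7, RingHom.comp_id, RingHom.id_apply]
      push_cast
      rfl
    rw [h5, map_sum, AddSubmonoidClass.coe_finsetSum]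
    apply Finset.sum_congr rfl
    intro i _
    have h6 := lf2_sum hm hζ φK hφζ' hmq hl e (S i) (fun _ => 1) (fun _ => 1) (fun _ _ _ => rfl)
    simp only [mul_one] at h6
    rw [map_mul, map_sum, h6, Subring.coe_mul, AddSubmonoidClass.coe_finsetSum]
    refine congrArg₂ (· * ·) (by simp) (Finset.sum_congr rfl ?_)
    intro x _
    split_ifs
    · rw [Subring.coe_pow, hev]
    · rfl

end Pool.Agent.PG
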