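import Pool.Agent.Lib_helper62.AP.Orb
import Pool.Agent.Lib_helper61.PG.Defs

/-! # The Euler product over the orbits of a permutation, with a multiset of eigenvalues -/

set_option autoImplicit false

namespace Pool.Agent.PG

open Function Pool.Agent.AP

/-- Pairs of sequences with Euler products `E`, `E₀` such that `E = E₀ ^ r` after reduction. -/
def HasE2 {B k : Type} [CommRing B] [CommRing k] (red : B →+* k) (r : ℕ) (s s₀ : ℕ → B) : Prop :=
  ∃ E E₀ : PowerSeries B, LogD s E ∧ LogD s₀ E₀ ∧
    PowerSeries.map red E = PowerSeries.map red E₀ ^ r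

section

variable {B k : Type} [CommRing B] [CommRing k]

theorem logD_congr {s s' : ℕ → B} {E : PowerSeries B} (h : ∀ r, 1 ≤ r → s r = s' r)
    (hs : LogD s E) : LogD s' E := by
  obtain ⟨h1, h2⟩ := hs
  refine ⟨h1, ?_⟩
  rw [h2]
  congr 3
  funext r
  rcases Nat.eq_zero_or_pos r with hr | hr
  · rw [if_pos hr, if_pos hr]
  · rw [if_neg hr.ne', if_neg hr.ne', h r hr]

theorem logD_zero : LogD (fun _ => (0 : B)) 1 := by
  refine ⟨map_one _, ?_⟩
  have h1 : PowerSeries.derivative B (1 : PowerSeries B) = 0 := by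
    exact Derivation.map_one_eq_zero _
  have h2 : (PowerSeries.mk fun r => if r = 0 then (0 : B) else 0) = 0 := by
    ext r
    rw [PowerSeries.coeff_mk, ite_self, map_zero]
  rw [h1, h2, mul_zero, neg_zero, zero_mul]

theorem logD_add {s s' : ℕ → B} {E E' : PowerSeries B} (hs : LogD s E) (hs' : LogD s' E') :
    LogD (fun r => s r + s' r) (E * E') := by
  obtain ⟨h1, h2⟩ := hs
  obtain ⟨h1', h2'⟩ := hs'
  refine ⟨by rw [map_mul, h1, h1', one_mul], ?_⟩
  have h3 : (PowerSeries.mk fun r => if r = 0 then (0 : B) else s r + s' r) =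
      (PowerSeries.mk fun r => if r = 0 then (0 : B) else s r) +
      (PowerSeries.mk fun r => if r = 0 then (0 : B) else s' r) := by
    ext r
    rw [map_add, PowerSeries.coeff_mk, PowerSeries.coeff_mk, PowerSeries.coeff_mk]
    split_ifs
    · rw [add_zero]
    · rfl
  have h4 : PowerSeries.derivative B (E * E') =
      E * PowerSeries.derivative B E' + E' * PowerSeries.derivative B E := by
    rw [Derivation.leibniz, smul_eq_mul, smul_eq_mul]
  rw [h3, h4]
  linear_combination E * h2' + E' * h2

theorem logD_neg {s : ℕ → B} {E : PowerSeries B} (hs : LogD s E) :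
    ∃ E' : PowerSeries B, LogD (fun r => -s r) E' ∧ E * E' = 1 := by
  obtain ⟨h1, h2⟩ := hs
  set E' : PowerSeries B := PowerSeries.invOfUnit E 1 with hE'
  have h3 : E * E' = 1 := PowerSeries.mul_invOfUnit E 1 (by rw [h1]; rfl)
  refine ⟨E', ⟨?_, ?_⟩, h3⟩
  · have h4 := congrArg PowerSeries.constantCoeff h3
    rw [map_mul, h1, one_mul, map_one] at h4
    exact h4
  · have h5 : PowerSeries.derivative B (E * E') = 0 := by
      rw [h3]
      exact Derivation.map_one_eq_zero _
    rw [Derivation.leibniz, smul_eq_mul, smul_eq_mul] at h5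
    have h6 : (PowerSeries.mk fun r => if r = 0 then (0 : B) else -s r) =
        -(PowerSeries.mk fun r => if r = 0 then (0 : B) else s r) := by
      ext r
      rw [map_neg, PowerSeries.coeff_mk, PowerSeries.coeff_mk]
      split_ifs
      · rw [neg_zero]
      · rfl
    rw [h6]
    linear_combination (PowerSeries.X * E') * h5 - E' * E' * h2 -
      (PowerSeries.X * PowerSeries.derivative B E') * h3 +
      (PowerSeries.mk fun r => if r = 0 then (0 : B) else s r) * E' * h3

/-- One orbit. -/
theorem logD_single {l : ℕ} (hl : 0 < l) (W : B) :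
    LogD (fun r => if l ∣ r then (l : B) * W ^ (r / l) else 0)
      (1 - PowerSeries.C W * PowerSeries.X ^ l) := by
  refine ⟨?_, ?_⟩
  · rw [map_sub, map_one, map_mul, map_pow, PowerSeries.constantCoeff_X, zero_pow hl.ne', mul_zero,
      sub_zero]
  · ext j
    rcases j with _ | j
    · rw [PowerSeries.coeff_zero_X_mul, PowerSeries.coeff_zero_eq_constantCoeff_apply, map_mul,
        map_neg, PowerSeries.constantCoeff_mk, if_pos rfl, neg_zero, zero_mul]
    · have hc : ∀ i : ℕ, PowerSeries.coeff i (1 - PowerSeries.C W * PowerSeries.X ^ l) =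
          (if i = 0 then 1 else 0) - W * (if i = l then 1 else 0) := by
        intro i
        rw [map_sub, PowerSeries.coeff_one, PowerSeries.coeff_C_mul, PowerSeries.coeff_X_pow]
      rw [PowerSeries.coeff_succ_X_mul, PowerSeries.coeff_derivative, hc, mul_sub, mul_one,
        map_sub]
      have h2 : PowerSeries.coeff (j + 1) (-(PowerSeries.mk fun r => if r = 0 then (0 : B) else
          if l ∣ r then (l : B) * W ^ (r / l) else 0)) =
          -(if l ∣ j + 1 then (l : B) * W ^ ((j + 1) / l) else 0) := by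
        rw [map_neg, PowerSeries.coeff_mk, if_neg (Nat.succ_ne_zero j)]
      rw [h2, ← mul_assoc, mul_comm (-(PowerSeries.mk fun r => if r = 0 then (0 : B) else
          if l ∣ r then (l : B) * W ^ (r / l) else 0)) (PowerSeries.C W), mul_assoc,
        PowerSeries.coeff_C_mul, PowerSeries.coeff_mul_X_pow']
      rw [if_neg (Nat.succ_ne_zero j)]
      by_cases hlj : l ≤ j + 1
      · rw [if_pos hlj, map_neg, PowerSeries.coeff_mk]
        rcases hlj.eq_or_lt with h | h
        · subst h
          rw [Nat.sub_self, if_pos rfl, if_pos rfl, if_pos dvd_rfl, Nat.div_self (Nat.succ_pos j),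
            pow_one]
          push_cast
          ring
        · rw [if_neg h.ne', if_neg (Nat.sub_pos_of_lt h).ne']
          by_cases hd : l ∣ j + 1
          · have hd' : l ∣ j + 1 - l := Nat.dvd_sub hd dvd_rfl
            rw [if_pos hd, if_pos hd']
            have h5 : (j + 1) / l = (j + 1 - l) / l + 1 := by
              conv_lhs => rw [← Nat.sub_add_cancel hlj]
              rw [Nat.add_div_right _ hl]
            rw [h5, pow_succ]
            ring
          · have hd' : ¬ l ∣ j + 1 - l := by
              intro h6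
              apply hd
              have h7 := Nat.dvd_add h6 (dvd_refl l)
              rwa [Nat.sub_add_cancel hlj] at h7
            rw [if_neg hd, if_neg hd']
            ring
      · rw [if_neg hlj]
        have h8 : ¬ j + 1 = l := fun h => hlj h.ge
        have h9 : ¬ l ∣ j + 1 := fun h => hlj (Nat.le_of_dvd (Nat.succ_pos j) h)
        rw [if_neg h8, if_neg h9]
        ring

variable {red : B →+* k} {r : ℕ}

theorem hasE2_congr {s s' s₀ s₀' : ℕ → B} (h : ∀ j, 1 ≤ j → s j = s' j)
    (h₀ : ∀ j, 1 ≤ j → s₀ j = s₀' j) (hs : HasE2 red r s s₀) : HasE2 red r s' s₀' := by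
  obtain ⟨E, E₀, h1, h2, h3⟩ := hs
  exact ⟨E, E₀, logD_congr h h1, logD_congr h₀ h2, h3⟩

theorem hasE2_zero : HasE2 red r (fun _ => (0 : B)) (fun _ => (0 : B)) :=
  ⟨1, 1, logD_zero, logD_zero, by rw [map_one, one_pow]⟩

theorem hasE2_add {s s' s₀ s₀' : ℕ → B} (hs : HasE2 red r s s₀) (hs' : HasE2 red r s' s₀') :
    HasE2 red r (fun j => s j + s' j) (fun j => s₀ j + s₀' j) := by
  obtain ⟨E, E₀, h1, h2, h3⟩ := hs
  obtain ⟨E', E₀', h1', h2', h3'⟩ := hs'
  exact ⟨E * E', E₀ * E₀', logD_add h1 h1', logD_add h2 h2', by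
    rw [map_mul, map_mul, h3, h3', mul_pow]⟩

theorem hasE2_neg {s s₀ : ℕ → B} (hs : HasE2 red r s s₀) :
    HasE2 red r (fun j => -s j) (fun j => -s₀ j) := by
  obtain ⟨E, E₀, h1, h2, h3⟩ := hs
  obtain ⟨E', h1', h1''⟩ := logD_neg h1
  obtain ⟨E₀', h2', h2''⟩ := logD_neg h2
  refine ⟨E', E₀', h1', h2', ?_⟩
  have h4 := congrArg (PowerSeries.map red) h1''
  have h5 := congrArg (PowerSeries.map red) h2''
  rw [map_mul, map_one] at h4 h5
  have h6 : PowerSeries.map red E₀ ^ r * PowerSeries.map red E₀' ^ r = 1 := by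
    rw [← mul_pow, h5, one_pow]
  rw [h3] at h4
  calc PowerSeries.map red E' = (PowerSeries.map red E₀ ^ r * PowerSeries.map red E₀' ^ r) *
        PowerSeries.map red E' := by rw [h6, one_mul]
    _ = (PowerSeries.map red E₀ ^ r * PowerSeries.map red E') *
        PowerSeries.map red E₀' ^ r := by ring
    _ = PowerSeries.map red E₀' ^ r := by rw [h4, one_mul]

theorem hasE2_nsmul {s s₀ : ℕ → B} (hs : HasE2 red r s s₀) (n : ℕ) :
    HasE2 red r (fun j => (n : B) * s j) (fun j => (n : B) * s₀ j) := by
  induction n with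
  | zero =>
    refine hasE2_congr (fun j _ => ?_) (fun j _ => ?_) hasE2_zero
    · rw [Nat.cast_zero, zero_mul]
    · rw [Nat.cast_zero, zero_mul]
  | succ n ih =>
    refine hasE2_congr (fun j _ => ?_) (fun j _ => ?_) (hasE2_add ih hs)
    · rw [Nat.cast_succ, add_mul, one_mul]
    · rw [Nat.cast_succ, add_mul, one_mul]

theorem hasE2_zsmul {s s₀ : ℕ → B} (hs : HasE2 red r s s₀) (n : ℤ) :
    HasE2 red r (fun j => (n : B) * s j) (fun j => (n : B) * s₀ j) := by
  obtain ⟨c, rfl | rfl⟩ := n.eq_nat_or_neg
  · refine hasE2_congr (fun j _ => ?_) (fun j _ => ?_) (hasE2_nsmul hs c)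
    · rw [Int.cast_natCast]
    · rw [Int.cast_natCast]
  · refine hasE2_congr (fun j _ => ?_) (fun j _ => ?_) (hasE2_neg (hasE2_nsmul hs c))
    · rw [Int.cast_neg, Int.cast_natCast, neg_mul]
    · rw [Int.cast_neg, Int.cast_natCast, neg_mul]

theorem hasE2_sum {ι : Type} (t : Finset ι) {s s₀ : ι → ℕ → B}
    (h : ∀ i ∈ t, HasE2 red r (s i) (s₀ i)) :
    HasE2 red r (fun j => ∑ i ∈ t, s i j) (fun j => ∑ i ∈ t, s₀ i j) := by
  classical
  induction t using Finset.induction_on with
  | empty =>
    refine hasE2_congr (fun j _ => ?_) (fun j _ => ?_) hasE2_zero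
    · rw [Finset.sum_empty]
    · rw [Finset.sum_empty]
  | insert a t ha ih =>
    refine hasE2_congr (fun j _ => ?_) (fun j _ => ?_)
      (hasE2_add (h a (Finset.mem_insert_self a t)) (ih fun i hi => h i (Finset.mem_insert_of_mem hi)))
    · rw [Finset.sum_insert ha]
    · rw [Finset.sum_insert ha]

/-- One orbit with a multiset of eigenvalues. -/
theorem logD_multi {l : ℕ} (hl : 0 < l) (W : B) (ω : Multiset B) :
    LogD (fun j => if l ∣ j then (l : B) * (W ^ (j / l) * (ω.map (· ^ (j / l))).sum) else 0)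
      (ω.map fun w => 1 - PowerSeries.C (W * w) * PowerSeries.X ^ l).prod := by
  induction ω using Multiset.induction_on with
  | empty =>
    rw [Multiset.map_zero, Multiset.prod_zero]
    refine logD_congr (fun j _ => ?_) logD_zero
    simp
  | cons a ω ih =>
    rw [Multiset.map_cons, Multiset.prod_cons]
    refine logD_congr (fun j _ => ?_) (logD_add (logD_single hl (W * a)) ih)
    rw [Multiset.map_cons, Multiset.sum_cons, mul_pow]
    split_ifs
    · ring
    · ring

theorem hasE2_single {l : ℕ} (hl : 0 < l) (W : B) (ω : Multiset B) (hr : ω.card = r)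
    (h1 : ∀ w ∈ ω, red w = 1) :
    HasE2 red r
      (fun j => if l ∣ j then (l : B) * (W ^ (j / l) * (ω.map (· ^ (j / l))).sum) else 0)
      (fun j => if l ∣ j then (l : B) * W ^ (j / l) else 0) := by
  refine ⟨_, _, logD_multi hl W ω, logD_single hl W, ?_⟩
  rw [map_multiset_prod, Multiset.map_map]
  have h2 : ω.map (PowerSeries.map red ∘ fun w => 1 - PowerSeries.C (W * w) * PowerSeries.X ^ l) =
      ω.map fun _ => PowerSeries.map red (1 - PowerSeries.C W * PowerSeries.X ^ l) := by
    apply Multiset.map_congr rfl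
    intro w hw
    have h3 : PowerSeries.map red (PowerSeries.C (W * w)) =
        PowerSeries.map red (PowerSeries.C W) := by
      rw [PowerSeries.map_C, PowerSeries.map_C, map_mul red, h1 w hw, mul_one]
    have h4 : PowerSeries.map red (PowerSeries.C (W * w) * PowerSeries.X ^ l) =
        PowerSeries.map red (PowerSeries.C W * PowerSeries.X ^ l) := by
      rw [map_mul (PowerSeries.map red), map_mul (PowerSeries.map red), h3]
    rw [Function.comp_apply, map_sub, map_sub, h4]
  rw [h2, Multiset.map_const', Multiset.prod_replicate, hr]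

end

/-- BLOCK ORB2. The weighted numbers of fixed points of the powers of a permutation. -/
theorem block_ORB2 {B k : Type} [CommRing B] [CommRing k] (red : B →+* k) (r : ℕ) {X : Type}
    [Fintype X] [DecidableEq X] (f : X → X) (hf : Injective f) (W : X → B)
    (hW : ∀ x, W (f x) = W x) (ω : X → Multiset B) (hω : ∀ x, ω (f x) = ω x)
    (hr : ∀ x, (ω x).card = r) (h1 : ∀ x, ∀ w ∈ ω x, red w = 1) :
    HasE2 red r (fun l => ∑ x, if f^[l] x = x then
        W x ^ (l / minimalPeriod f x) * ((ω x).map (· ^ (l / minimalPeriod f x))).sum else 0)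
      (fun l => ∑ x, if f^[l] x = x then W x ^ (l / minimalPeriod f x) else 0) := by
  classical
  have hper : ∀ x, x ∈ periodicPts f := fun x => hf.mem_periodicPts x
  have hpos : ∀ x, 0 < minimalPeriod f x := fun x => minimalPeriod_pos_of_mem_periodicPts (hper x)
  have hWi : ∀ (i : ℕ) (x : X), W (f^[i] x) = W x := by
    intro i
    induction i with
    | zero => intro x; rfl
    | succ i ih => intro x; rw [iterate_succ_apply', hW, ih]
  have hωi : ∀ (i : ℕ) (x : X), ω (f^[i] x) = ω x := by
    intro i
    induction i with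
    | zero => intro x; rfl
    | succ i ih => intro x; rw [iterate_succ_apply', hω, ih]
  have hli : ∀ (i : ℕ) (x : X), minimalPeriod f (f^[i] x) = minimalPeriod f x := fun i x =>
    minimalPeriod_apply_iterate (hper x) i
  let g : X → Finset X := fun x => (Finset.range (minimalPeriod f x)).image fun i => f^[i] x
  have hg : ∀ x y, y ∈ g x ↔ ∃ n, f^[n] x = y := by
    intro x y
    constructor
    · intro h
      obtain ⟨i, -, hi⟩ := Finset.mem_image.mp h
      exact ⟨i, hi⟩
    · rintro ⟨n, rfl⟩
      refine Finset.mem_image.mpr ⟨n % minimalPeriod f x,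
        Finset.mem_range.mpr (Nat.mod_lt _ (hpos x)), ?_⟩
      exact iterate_mod_minimalPeriod_eq
  have hgg : ∀ x y, y ∈ g x → g y = g x := by
    intro x y hy
    obtain ⟨i, rfl⟩ := (hg x y).mp hy
    ext z
    rw [hg, hg]
    constructor
    · rintro ⟨n, rfl⟩
      exact ⟨n + i, iterate_add_apply f n i x⟩
    · rintro ⟨n, rfl⟩
      have h1 : i ≤ minimalPeriod f x * i := Nat.le_mul_of_pos_left i (hpos x)
      refine ⟨n + (minimalPeriod f x * i - i), ?_⟩
      rw [← iterate_add_apply, add_assoc, Nat.sub_add_cancel h1, iterate_add_apply]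
      congr 1
      exact ((isPeriodicPt_minimalPeriod f x).mul_const i)
  have hgs : ∀ x, x ∈ g x := fun x => (hg x x).mpr ⟨0, rfl⟩
  refine hasE2_congr (s := fun r => ∑ y ∈ Finset.univ.image g, ∑ x with g x = y,
    if f^[r] x = x then W x ^ (r / minimalPeriod f x) *
      ((ω x).map (· ^ (r / minimalPeriod f x))).sum else 0)
    (s₀ := fun r => ∑ y ∈ Finset.univ.image g, ∑ x with g x = y,
    if f^[r] x = x then W x ^ (r / minimalPeriod f x) else 0) (fun r _ => ?_) (fun r _ => ?_) ?_
  · exact Finset.sum_fiberwise_of_maps_to (fun x _ => Finset.mem_image_of_mem g (Finset.mem_univ x)) _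
  · exact Finset.sum_fiberwise_of_maps_to (fun x _ => Finset.mem_image_of_mem g (Finset.mem_univ x)) _
  · apply hasE2_sum
    intro y hy
    obtain ⟨x₀, -, rfl⟩ := Finset.mem_image.mp hy
    have h2' : (Finset.univ.filter fun x => g x = g x₀) = g x₀ := by
      ext x
      rw [Finset.mem_filter]
      constructor
      · rintro ⟨-, h⟩
        rw [← h]
        exact hgs x
      · intro h
        exact ⟨Finset.mem_univ _, hgg x₀ x h⟩
    have h5 : (g x₀).card = minimalPeriod f x₀ := by
      rw [Finset.card_image_of_injOn, Finset.card_range]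
      intro i hi j hj hij
      rw [Finset.coe_range] at hi hj
      exact iterate_injOn_Iio_minimalPeriod hi hj hij
    have h3 : ∀ (r i : ℕ), f^[r] (f^[i] x₀) = f^[i] x₀ ↔ minimalPeriod f x₀ ∣ r := by
      intro r i
      rw [← hli i x₀, ← isPeriodicPt_iff_minimalPeriod_dvd]
      rfl
    refine hasE2_congr (fun r _ => ?_) (fun r _ => ?_)
      (hasE2_single (hpos x₀) (W x₀) (ω x₀) (hr x₀) (h1 x₀))
    · rw [h2']
      have h2 : ∀ x ∈ g x₀, (if f^[r] x = x then W x ^ (r / minimalPeriod f x) *
          ((ω x).map (· ^ (r / minimalPeriod f x))).sum else 0) =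
          if minimalPeriod f x₀ ∣ r then W x₀ ^ (r / minimalPeriod f x₀) *
            ((ω x₀).map (· ^ (r / minimalPeriod f x₀))).sum else 0 := by
        intro x hx
        obtain ⟨i, rfl⟩ := (hg x₀ x).mp hx
        rw [hWi, hωi, hli]
        by_cases h4 : minimalPeriod f x₀ ∣ r
        · rw [if_pos ((h3 r i).mpr h4), if_pos h4]
        · rw [if_neg (fun h => h4 ((h3 r i).mp h)), if_neg h4]
      rw [Finset.sum_congr rfl h2, Finset.sum_const, h5, nsmul_eq_mul]
      split_ifs
      · rfl
      · rw [mul_zero]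
    · rw [h2']
      have h2 : ∀ x ∈ g x₀, (if f^[r] x = x then W x ^ (r / minimalPeriod f x) else 0) =
          if minimalPeriod f x₀ ∣ r then W x₀ ^ (r / minimalPeriod f x₀) else 0 := by
        intro x hx
        obtain ⟨i, rfl⟩ := (hg x₀ x).mp hx
        rw [hWi, hli]
        by_cases h4 : minimalPeriod f x₀ ∣ r
        · rw [if_pos ((h3 r i).mpr h4), if_pos h4]
        · rw [if_neg (fun h => h4 ((h3 r i).mp h)), if_neg h4]
      rw [Finset.sum_congr rfl h2, Finset.sum_const, h5, nsmul_eq_mul]
      split_ifs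
      · rfl
      · rw [mul_zero]

end Pool.Agent.PG
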